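import Pool.Agent.H13.Fact

set_option autoImplicit false
open Finset

namespace Pool.Agent.Results.MP_5a4a69_co.Exists

def IsPM {V : Type} (m : V → V) : Prop := (∀ x, m (m x) = x) ∧ ∀ x, m x ≠ x

theorem result (N : ℕ) : ∃ (n : ℕ) (V : Type) (_ : Fintype V) (D : Set (V → V)) (c : ℕ),
    N ≤ n ∧ 4 ≤ n ∧ Fintype.card V = 2 * n ∧ (∀ m ∈ D, IsPM m) ∧ D.Nonempty ∧
      D ≠ {m | IsPM m} ∧ 0 < c ∧ ∀ a a' b b' e e' : V, [a, a', b, b', e, e'].Nodup →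
        {m ∈ D | m a = a' ∧ m b = b' ∧ m e = e'}.ncard = c := by
  classical
  obtain ⟨j, hj, h⟩ := H13.Fact.main 6 (N + 4)
  obtain ⟨D, d1, ⟨u, hu⟩, ⟨w, d2, d3⟩, d4⟩ := h
    (fun m t => m (t 0) = t 1 ∧ m (t 2) = t 3 ∧ m (t 4) = t 5)
    (fun g m t k => by simp [H13.Fact.cj, k])
  have l : j < 2 ^ j := Nat.lt_two_pow_self
  obtain ⟨x, y, z, k⟩ := H13.Fact.three (by rw [H13.Fact.cardW]; omega) u (d1 u hu).1 (d1 u hu).2
  refine ⟨2 * 2 ^ j, H13.Fact.W j, inferInstance, D,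
    #{m ∈ D | m x = u x ∧ m y = u y ∧ m z = u z}, by omega, by omega, H13.Fact.cardW j,
    d1, ⟨u, hu⟩, fun e => d3 (e.superset d2), card_pos.2 ⟨u, by simp [hu]⟩,
    fun a a' b b' e e' hn => ?_⟩
  have := d4 ![a, a', b, b', e, e'] _ (List.nodup_ofFn.1 (by simpa [List.ofFn_succ] using hn)) k
  refine Eq.trans ?_ (this.trans (by convert rfl <;> rfl))
  rw [← Set.ncard_coe_finset]
  congr 1
  ext m
  simp

end Pool.Agent.Results.MP_5a4a69_co.Exists
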